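import Mathlib

/-! Designs, defining sets and their spectrum. -/

set_option autoImplicit false

namespace Pool.Agent.U54.Hole

/-- `B` is (the block set of) a simple `t-(v,k,lam)` design on the point set `V`. -/
def IsDesign {V : Type} [DecidableEq V] (t k lam : ℕ) (B : Finset (Finset V)) : Prop :=
  (∀ b ∈ B, b.card = k) ∧
    ∀ T : Finset V, T.card = t → (B.filter (fun b => T ⊆ b)).card = lam

/-- `S` is a defining set of the design `B`: a set of blocks of `B` such that `B` is the only
`t-(v,k,lam)` design on the same point set that contains `S`. -/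
def IsDefining {V : Type} [DecidableEq V] (t k lam : ℕ) (B S : Finset (Finset V)) : Prop :=
  S ⊆ B ∧ ∀ B' : Finset (Finset V), IsDesign t k lam B' → S ⊆ B' → B' = B

/-- a defining set no proper subset of which is a defining set -/
def IsMinimalDefining {V : Type} [DecidableEq V] (t k lam : ℕ) (B S : Finset (Finset V)) :
    Prop :=
  IsDefining t k lam B S ∧ ∀ S' : Finset (Finset V), S' ⊂ S → ¬ IsDefining t k lam B S'

/-- the set of the sizes of the minimal defining sets -/
def spectrum {V : Type} [DecidableEq V] (t k lam : ℕ) (B : Finset (Finset V)) : Set ℕ :=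
  {m | ∃ S : Finset (Finset V), IsMinimalDefining t k lam B S ∧ S.card = m}

/-- a set of numbers that is not an interval -/
def HasHole (A : Set ℕ) : Prop :=
  ∃ a ∈ A, ∃ b ∈ A, ∃ m, a < m ∧ m < b ∧ m ∉ A

end Pool.Agent.U54.Hole
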