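import Mathlib
import Pool.Agent.U54.Hole.Defs
import Pool.Agent.U54.Hole.Data

/-! The designs 2-(7,3,4) and the hitting sets of the Fano planes. -/

set_option autoImplicit false

namespace Pool.Agent.U54.Hole

/-- the block coded by `n` -/
def blk (n : ℕ) : Finset (Fin 7) := Finset.univ.filter (fun x => n.testBit x.val = true)

theorem mem_blk {n : ℕ} {x : Fin 7} : x ∈ blk n ↔ n.testBit x.val = true := by
  simp [blk]

theorem blk_subset {n m : ℕ} (hn : n < 128) : blk n ⊆ blk m ↔ Nat.land n m = n := by
  constructor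
  · intro h
    apply Nat.eq_of_testBit_eq
    intro j
    rw [land_testBit]
    by_cases hj : j < 7
    · cases hb : n.testBit j
      · simp
      · have := h (mem_blk.2 (show n.testBit ((⟨j, hj⟩ : Fin 7) : ℕ) = true from hb))
        have := mem_blk.1 this
        simpa using this
    · have : n.testBit j = false :=
        Nat.testBit_lt_two_pow (lt_of_lt_of_le hn (by
          calc 128 = 2 ^ 7 := by norm_num
            _ ≤ 2 ^ j := Nat.pow_le_pow_right (by norm_num) (by omega)))
      rw [this]; rfl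
  · intro h x hx
    rw [mem_blk] at hx ⊢
    rw [← h, land_testBit, Bool.and_eq_true] at hx
    exact hx.2

theorem blk_inj {n m : ℕ} (hn : n < 128) (hm : m < 128) (h : blk n = blk m) : n = m := by
  have h1 := (blk_subset (m := m) hn).1 (h ▸ le_refl _)
  have h2 := (blk_subset (m := n) hm).1 (h ▸ le_refl _)
  have h3 : Nat.land n m = Nat.land m n := Nat.land_comm n m
  rw [← h1, h3, h2]

theorem triple_coded : ∀ s : Finset (Fin 7), s.card = 3 → ∃ n ∈ T35, blk n = s := by
  decide +kernel

theorem pair_coded : ∀ s : Finset (Fin 7), s.card = 2 → ∃ n ∈ P21, blk n = s := by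
  decide +kernel

theorem T35_lt : ∀ n ∈ T35, n < 128 := by decide +kernel
theorem P21_lt : ∀ n ∈ P21, n < 128 := by decide +kernel
theorem T35_card : ∀ n ∈ T35, (blk n).card = 3 := by decide +kernel
theorem T35_nodup : T35.Nodup := by decide +kernel
theorem P21_card : ∀ n ∈ P21, (blk n).card = 2 := by decide +kernel

/-- all the planes -/
def fan : List (List ℕ) := F0 :: others

/-- counting the blocks through a pair -/
theorem card_through {B : Finset (Finset (Fin 7))} (hB : ∀ b ∈ B, b.card = 3) {p : ℕ}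
    (hp : p ∈ P21) :
    (B.filter (fun b => blk p ⊆ b)).card =
      ((T35.filter (fun n => Nat.land p n = p)).filter (fun n => blk n ∈ B)).length := by
  have e : B.filter (fun b => blk p ⊆ b) =
      (((T35.filter (fun n => Nat.land p n = p)).filter (fun n => blk n ∈ B)).map blk).toFinset := by
    ext b
    simp only [Finset.mem_filter, List.mem_toFinset, List.mem_map, List.mem_filter,
      decide_eq_true_eq]
    constructor
    · rintro ⟨h1, h2⟩
      obtain ⟨n, hn, rfl⟩ := triple_coded b (hB b h1)
      exact ⟨n, ⟨⟨hn, (blk_subset (P21_lt p hp)).1 h2⟩, h1⟩, rfl⟩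
    · rintro ⟨n, ⟨⟨hn, h2⟩, h1⟩, rfl⟩
      exact ⟨h1, (blk_subset (P21_lt p hp)).2 h2⟩
  rw [e, List.toFinset_card_of_nodup, List.length_map]
  apply List.Nodup.map_on
  · intro a ha b hb hab
    simp only [List.mem_filter] at ha hb
    exact blk_inj (T35_lt a ha.1.1) (T35_lt b hb.1.1) hab
  · exact (T35_nodup.filter _).filter _

theorem five : ∀ p ∈ P21, (T35.filter (fun n => Nat.land p n = p)).length = 5 := by
  decide +kernel

/-- in a 2-(7,3,4) design exactly one triple through each pair is missing -/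
theorem missing {B : Finset (Finset (Fin 7))} (hB : IsDesign 2 3 4 B) {p : ℕ} (hp : p ∈ P21) :
    ∃ t ∈ T35, Nat.land p t = p ∧ blk t ∉ B ∧
      ∀ s ∈ T35, Nat.land p s = p → blk s ∉ B → s = t := by
  have h1 := hB.2 (blk p) (P21_card p hp)
  rw [card_through hB.1 hp] at h1
  have h2 := List.length_eq_length_filter_add
    (l := T35.filter (fun n => Nat.land p n = p)) (fun n => decide (blk n ∈ B))
  rw [five p hp, h1] at h2
  have h3 : ((T35.filter (fun n => Nat.land p n = p)).filter
      (fun n => !decide (blk n ∈ B))).length = 1 := by omega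
  obtain ⟨t, ht⟩ := List.length_eq_one_iff.1 h3
  have hmem : ∀ s, s ∈ T35 → Nat.land p s = p → blk s ∉ B → s = t := by
    intro s hs h4 h5
    have : s ∈ ((T35.filter (fun n => Nat.land p n = p)).filter
      (fun n => !decide (blk n ∈ B))) := by
      simp only [List.mem_filter, hs, h4, h5]; simp
    rw [ht] at this
    simpa using this
  have htm : t ∈ ((T35.filter (fun n => Nat.land p n = p)).filter
      (fun n => !decide (blk n ∈ B))) := by rw [ht]; simp
  simp only [List.mem_filter, Bool.not_eq_true', decide_eq_false_iff_not,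
    decide_eq_true_eq] at htm
  exact ⟨t, htm.1.1, htm.1.2, htm.2, hmem⟩

/-- two triples share at most one point -/
def ok (s t : ℕ) : Bool := Nat.beq (Nat.land (Nat.land s t) (Nat.land s t - 1)) 0

/-- exhaustive search for the Fano planes -/
def dfs : List ℕ → List ℕ → Bool
  | [], ch => fan.any (fun F => F.all (fun n => ch.contains n) && ch.all (fun n => F.contains n))
  | p :: ps, ch =>
    if ch.any (fun t => Nat.beq (Nat.land p t) p) then dfs ps ch
    else (T35.filter (fun t => Nat.land p t = p)).all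
      (fun t => ch.any (fun s => !ok s t) || dfs ps (t :: ch))

theorem ok_false : ∀ s ∈ T35, ∀ t ∈ T35, ok s t = false →
    s = t ∨ ∃ q ∈ P21, Nat.land q s = q ∧ Nat.land q t = q := by
  decide +kernel

theorem has_pair : ∀ t ∈ T35, ∃ q ∈ P21, Nat.land q t = q := by
  decide +kernel

theorem dfs_sound {c : ℕ → Prop}
    (H1 : ∀ p ∈ P21, ∃ t ∈ T35, Nat.land p t = p ∧ c t)
    (H2 : ∀ p ∈ P21, ∀ s ∈ T35, ∀ t ∈ T35, Nat.land p s = p → Nat.land p t = p → c s → c t →
      s = t)
    (ps ch : List ℕ) (h : dfs ps ch = true) (hch : ∀ t ∈ ch, t ∈ T35 ∧ c t)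
    (hps : ∀ p ∈ ps, p ∈ P21)
    (hcov : ∀ p ∈ P21, p ∈ ps ∨ ∃ t ∈ ch, Nat.land p t = p) :
    ∃ F ∈ fan, ∀ t ∈ T35, (c t ↔ t ∈ F) := by
  induction ps generalizing ch with
  | nil =>
    simp only [dfs, List.any_eq_true, Bool.and_eq_true, List.all_eq_true, List.contains_iff_mem]
      at h
    obtain ⟨F, hF, h1, h2⟩ := h
    refine ⟨F, hF, fun t ht => ⟨fun hc => ?_, fun hf => (hch t (h1 t hf)).2⟩⟩
    obtain ⟨q, hq, hqt⟩ := has_pair t ht
    rcases hcov q hq with h3 | ⟨s, hs, hqs⟩
    · simp at h3
    · have := H2 q hq s (hch s hs).1 t ht hqs hqt (hch s hs).2 hc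
      exact this ▸ h2 s hs
  | cons p ps ih =>
    rw [dfs] at h
    split at h
    · rename_i hb
      refine ih ch h hch (fun q hq => hps q (by simp [hq])) ?_
      intro q hq
      rcases hcov q hq with h3 | h3
      · rcases List.mem_cons.1 h3 with rfl | h3
        · right
          rw [List.any_eq_true] at hb
          obtain ⟨t, ht, e⟩ := hb
          exact ⟨t, ht, Nat.eq_of_beq_eq_true e⟩
        · exact Or.inl h3
      · exact Or.inr h3
    · rename_i hb
      obtain ⟨t, ht, hpt, hct⟩ := H1 p (hps p (by simp))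
      rw [List.all_eq_true] at h
      have h4 := h t (by simp only [List.mem_filter, ht, hpt]; simp)
      rw [Bool.or_eq_true] at h4
      rcases h4 with h4 | h4
      · exfalso
        rw [List.any_eq_true] at h4
        obtain ⟨s, hs, hst⟩ := h4
        have hst' : ok s t = false := by simpa using hst
        have hse : s = t := by
          rcases ok_false s (hch s hs).1 t ht hst' with e | ⟨q, hq, h5, h6⟩
          · exact e
          · exact H2 q hq s (hch s hs).1 t ht h5 h6 (hch s hs).2 hct
        apply hb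
        rw [List.any_eq_true]
        refine ⟨s, hs, ?_⟩
        rw [hse, hpt]
        exact Nat.beq_refl p
      · refine ih (t :: ch) h4 ?_ (fun q hq => hps q (by simp [hq])) ?_
        · intro s hs
          rcases List.mem_cons.1 hs with rfl | hs
          · exact ⟨ht, hct⟩
          · exact hch s hs
        · intro q hq
          rcases hcov q hq with h3 | ⟨s, hs, e⟩
          · rcases List.mem_cons.1 h3 with rfl | h3
            · exact Or.inr ⟨t, by simp, hpt⟩
            · exact Or.inl h3
          · exact Or.inr ⟨s, by simp [hs], e⟩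

theorem dfs_run : dfs P21 [] = true := by decide +kernel

/-- the classification of the 2-(7,3,4) designs -/
theorem classify {B : Finset (Finset (Fin 7))} (hB : IsDesign 2 3 4 B) :
    ∃ F ∈ fan, ∀ t ∈ T35, (blk t ∉ B ↔ t ∈ F) := by
  refine dfs_sound (c := fun t => blk t ∉ B) ?_ ?_ P21 [] dfs_run (by simp) (by simp) (by simp)
  · intro p hp
    obtain ⟨t, h1, h2, h3, -⟩ := missing hB hp
    exact ⟨t, h1, h2, h3⟩
  · intro p hp s hs t ht h1 h2 h3 h4
    obtain ⟨r, -, -, -, h⟩ := missing hB hp
    rw [h s hs h1 h3, h t ht h2 h4]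

/-- the design whose non-blocks are the triples of `F` -/
def des (F : List ℕ) : Finset (Finset (Fin 7)) := ((T35.filter (fun n => n ∉ F)).map blk).toFinset

theorem mem_des {F : List ℕ} {b : Finset (Fin 7)} : b ∈ des F ↔ ∃ n ∈ T35, n ∉ F ∧ blk n = b := by
  simp [des, and_assoc]

theorem blk_mem_des {F : List ℕ} {n : ℕ} (hn : n ∈ T35) : blk n ∈ des F ↔ n ∉ F := by
  rw [mem_des]
  constructor
  · rintro ⟨m, hm, h1, h2⟩
    rwa [blk_inj (T35_lt m hm) (T35_lt n hn) h2] at h1
  · intro h
    exact ⟨n, hn, h, rfl⟩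

theorem four : ∀ F ∈ fan, ∀ p ∈ P21,
    ((T35.filter (fun n => Nat.land p n = p)).filter (fun n => n ∉ F)).length = 4 := by
  decide +kernel

theorem des_card {F : List ℕ} : ∀ b ∈ des F, b.card = 3 := by
  intro b hb
  obtain ⟨n, hn, -, rfl⟩ := mem_des.1 hb
  exact T35_card n hn

theorem des_isDesign {F : List ℕ} (hF : F ∈ fan) : IsDesign 2 3 4 (des F) := by
  refine ⟨des_card, fun T hT => ?_⟩
  obtain ⟨p, hp, rfl⟩ := pair_coded T hT
  rw [card_through des_card hp, ← four F hF p hp]
  congr 1
  apply List.filter_congr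
  intro n hn
  have hn' : n ∈ T35 := (List.mem_filter.1 hn).1
  simp [blk_mem_des hn']

theorem others_new : ∀ F ∈ others, ∃ n ∈ F, n ∈ T35 ∧ n ∉ F0 := by decide +kernel

theorem des_ne {F : List ℕ} (hF : F ∈ others) : des F ≠ des F0 := by
  intro h
  obtain ⟨n, hn, hT, h0⟩ := others_new F hF
  have h1 : blk n ∈ des F0 := (blk_mem_des hT).2 h0
  rw [← h, blk_mem_des hT] at h1
  exact h1 hn

/-- the defining sets of the complement of the Fano plane are the hitting sets -/
theorem defining_iff {S : Finset (Finset (Fin 7))} (hS : S ⊆ des F0) :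
    IsDefining 2 3 4 (des F0) S ↔ ∀ F ∈ others, ∃ n ∈ F, n ∈ T35 ∧ n ∉ F0 ∧ blk n ∈ S := by
  constructor
  · rintro ⟨-, h⟩ F hF
    by_contra hne
    apply des_ne hF
    apply h (des F) (des_isDesign (by simp [fan, hF]))
    intro b hb
    obtain ⟨n, hn, h0, rfl⟩ := mem_des.1 (hS hb)
    rw [blk_mem_des hn]
    intro hnF
    exact hne ⟨n, hnF, hn, h0, hb⟩
  · intro h
    refine ⟨hS, fun B' hB' hSB => ?_⟩
    obtain ⟨F, hF, hc⟩ := classify hB'
    have hF' : F = F0 := by
      rcases List.mem_cons.1 hF with e | hFo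
      · exact e
      · exfalso
        obtain ⟨n, hn, hT, -, hnS⟩ := h F hFo
        exact (hc n hT).2 hn (hSB hnS)
    subst hF'
    ext b
    constructor
    · intro hb
      obtain ⟨n, hn, rfl⟩ := triple_coded b (hB'.1 b hb)
      rw [blk_mem_des hn]
      exact fun hf => (hc n hn).2 hf hb
    · intro hb
      obtain ⟨n, hn, h0, rfl⟩ := mem_des.1 hb
      by_contra hnb
      exact h0 ((hc n hn).1 hnb)

end Pool.Agent.U54.Hole
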