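import Mathlib
import Pool.Agent.U54.Hole.Bridge

/-! The spectrum of the complement of the Fano plane. -/

set_option autoImplicit false

namespace Pool.Agent.U54.Hole

theorem U28_mem : ∀ u ∈ U28, u.1 ∈ T35 ∧ u.1 ∉ F0 := by decide +kernel
theorem U28_all : ∀ n ∈ T35, n ∉ F0 → ∃ u ∈ U28, u.1 = n := by decide +kernel
theorem U28_key : ∀ u ∈ U28, ∀ v ∈ U28, u.1 = v.1 → u = v := by decide +kernel
theorem U28_nodup : U28.Nodup := by decide +kernel
theorem U28_pow : ∀ u ∈ U28, ∀ v ∈ U28, u.1 = v.1 ∨ Nat.land (2 ^ u.1) (2 ^ v.1) = 0 := by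
  decide +kernel
theorem U28_lt : ∀ u ∈ U28, u.2 < 2 ^ 29 := by decide +kernel
theorem U28_bit : ∀ u ∈ U28, ∀ j ∈ List.range 29,
    (u.2.testBit j = true ↔ u.1 ∈ others.getD j []) := by decide +kernel
theorem others_idx : ∀ F ∈ others, ∃ j ∈ List.range 29, others.getD j [] = F := by
  decide +kernel
theorem HS_bit : ∀ h ∈ HS, ∀ p ∈ h.2, ∃ j ∈ List.range 29,
    p.2.testBit j = true ∧ h.1.testBit j = true := by decide +kernel
theorem HS_set : ∀ h ∈ HS, ∃ F ∈ others, ∀ u ∈ U28, u.1 ∈ F → (2 ^ u.1, u.2) ∈ h.2 := by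
  decide +kernel
theorem HS_el : ∀ h ∈ HS, ∀ q ∈ h.2, ∃ u ∈ U28, q = (2 ^ u.1, u.2) := by decide +kernel

/-- the codes of the blocks of `S` -/
def codes (S : Finset (Finset (Fin 7))) : List (ℕ × ℕ) := U28.filter (fun u => blk u.1 ∈ S)

/-- the codes of the blocks of `S`, prepared for the search -/
def TT (S : Finset (Finset (Fin 7))) : Finset (ℕ × ℕ) :=
  ((codes S).map (fun u => (2 ^ u.1, u.2))).toFinset

theorem mem_codes {S : Finset (Finset (Fin 7))} {u : ℕ × ℕ} :
    u ∈ codes S ↔ u ∈ U28 ∧ blk u.1 ∈ S := by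
  simp [codes]

theorem mem_TT {S : Finset (Finset (Fin 7))} {p : ℕ × ℕ} :
    p ∈ TT S ↔ ∃ u ∈ U28, blk u.1 ∈ S ∧ (2 ^ u.1, u.2) = p := by
  simp only [TT, List.mem_toFinset, List.mem_map, mem_codes, and_assoc]

theorem codes_nodup (S : Finset (Finset (Fin 7))) : (codes S).Nodup := U28_nodup.filter _

theorem TT_card (S : Finset (Finset (Fin 7))) : (TT S).card = (codes S).length := by
  rw [TT, List.toFinset_card_of_nodup, List.length_map]
  apply List.Nodup.map_on _ (codes_nodup S)
  intro a ha b hb h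
  simp only [Prod.mk.injEq] at h
  have h1 : a.1 = b.1 := Nat.pow_right_injective (le_refl 2) h.1
  exact U28_key a (mem_codes.1 ha).1 b (mem_codes.1 hb).1 h1

theorem S_card {S : Finset (Finset (Fin 7))} (hS : S ⊆ des F0) : S.card = (codes S).length := by
  have e : S = ((codes S).map (fun u => blk u.1)).toFinset := by
    ext b
    simp only [List.mem_toFinset, List.mem_map, mem_codes]
    constructor
    · intro hb
      obtain ⟨n, hn, h0, rfl⟩ := mem_des.1 (hS hb)
      obtain ⟨u, hu, rfl⟩ := U28_all n hn h0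
      exact ⟨u, ⟨hu, hb⟩, rfl⟩
    · rintro ⟨u, ⟨-, h⟩, rfl⟩
      exact h
  conv_lhs => rw [e]
  rw [List.toFinset_card_of_nodup, List.length_map]
  apply List.Nodup.map_on _ (codes_nodup S)
  intro a ha b hb h
  have ha' := (mem_codes.1 ha).1
  have hb' := (mem_codes.1 hb).1
  exact U28_key a ha' b hb'
    (blk_inj (T35_lt _ (U28_mem a ha').1) (T35_lt _ (U28_mem b hb').1) h)

/-- the size of a minimal defining set is one of the five numbers -/
theorem size_good {S : Finset (Finset (Fin 7))} (h : IsMinimalDefining 2 3 4 (des F0) S) :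
    good S.card = true := by
  have hS : S ⊆ des F0 := h.1.1
  have hhit := (defining_iff hS).1 h.1
  rw [S_card hS, ← TT_card S]
  have hirr : Irr (TT S) := by
    intro p hp
    obtain ⟨u, hu, huS, rfl⟩ := mem_TT.1 hp
    have hnd := h.2 (S.erase (blk u.1)) (Finset.erase_ssubset huS)
    rw [defining_iff ((Finset.erase_subset _ _).trans hS)] at hnd
    push Not at hnd
    obtain ⟨F, hF, hno⟩ := hnd
    obtain ⟨n, hn, hT, h0, hnS⟩ := hhit F hF
    have hnu : n = u.1 := by
      by_contra hne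
      apply hno n hn hT h0
      refine Finset.mem_erase.2 ⟨fun e => hne ?_, hnS⟩
      exact blk_inj (T35_lt n hT) (T35_lt _ (U28_mem u hu).1) e
    obtain ⟨j, hj, hjF⟩ := others_idx F hF
    refine ⟨j, ?_, ?_⟩
    · have := (U28_bit u hu j hj).2 (by rw [hjF, ← hnu]; exact hn)
      simpa using this
    · intro q hq hqp
      obtain ⟨v, hv, hvS, rfl⟩ := mem_TT.1 hq
      by_contra hne
      have hb : v.2.testBit j = true := by
        cases hh : v.2.testBit j
        · exact absurd hh (by simpa using hne)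
        · rfl
      have hvF := (U28_bit v hv j hj).1 hb
      rw [hjF] at hvF
      have hm := U28_mem v hv
      apply hno v.1 hvF hm.1 hm.2
      refine Finset.mem_erase.2 ⟨fun e => hqp ?_, hvS⟩
      have e1 := blk_inj (T35_lt _ hm.1) (T35_lt _ (U28_mem u hu).1) e
      rw [U28_key v hv u hu e1]
  have hrun := search_run
  refine search_sound (T := TT S) hirr (full := 536870911) (good := good) ?_ HS ?_ ?_ ?_
    (once := 0) (multi := 0) (chp := []) (ex := 0) ?_ hrun
  · intro p hp j hj
    obtain ⟨u, hu, -, rfl⟩ := mem_TT.1 hp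
    have hlt := U28_lt u hu
    have hj29 : j < 29 := by
      by_contra hge
      have : u.2.testBit j = false :=
        Nat.testBit_lt_two_pow (lt_of_lt_of_le hlt (Nat.pow_le_pow_right (by norm_num) (by omega)))
      simp only at hj
      rw [this] at hj
      exact absurd hj (by simp)
    have : (536870911 : ℕ) = 2 ^ 29 - 1 := by norm_num
    rw [this, Nat.testBit_two_pow_sub_one]
    simpa using hj29
  · intro g hg p hp
    obtain ⟨j, -, h1, h2⟩ := HS_bit g hg p hp
    exact ⟨j, h1, h2⟩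
  · intro g hg
    obtain ⟨F, hF, hFg⟩ := HS_set g hg
    obtain ⟨n, hn, hT, h0, hnS⟩ := hhit F hF
    obtain ⟨u, hu, rfl⟩ := U28_all n hT h0
    exact ⟨_, hFg u hu hn, mem_TT.2 ⟨u, hu, hnS, rfl⟩⟩
  · intro g hg q hq hqT p hp
    obtain ⟨u, hu, rfl⟩ := HS_el g hg q hq
    obtain ⟨v, hv, hvS, rfl⟩ := mem_TT.1 hp
    rcases U28_pow u hu v hv with e | e
    · exfalso
      apply hqT
      rw [U28_key u hu v hv e]
      exact mem_TT.2 ⟨v, hv, hvS, rfl⟩
    · exact e
  · exact ⟨by simp, by simp, by simp, by simp, by intro p _; exact Nat.zero_and p.1⟩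

/-- a minimal defining set from a list of codes -/
theorem example_size (l : List ℕ) (h1 : ∀ n ∈ l, n ∈ T35 ∧ n ∉ F0) (hnd : l.Nodup)
    (h2 : ∀ F ∈ others, ∃ n ∈ l, n ∈ F)
    (h3 : ∀ n ∈ l, ∃ F ∈ others, ∀ m ∈ l, m ∈ F → m = n) :
    l.length ∈ spectrum 2 3 4 (des F0) := by
  have hin : ∀ n, n ∈ T35 → (blk n ∈ (l.map blk).toFinset ↔ n ∈ l) := by
    intro n hn
    simp only [List.mem_toFinset, List.mem_map]
    constructor
    · rintro ⟨m, hm, e⟩
      rwa [blk_inj (T35_lt m (h1 m hm).1) (T35_lt n hn) e] at hm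
    · intro h
      exact ⟨n, h, rfl⟩
  have hsub : (l.map blk).toFinset ⊆ des F0 := by
    intro b hb
    simp only [List.mem_toFinset, List.mem_map] at hb
    obtain ⟨n, hn, rfl⟩ := hb
    exact (blk_mem_des (h1 n hn).1).2 (h1 n hn).2
  refine ⟨(l.map blk).toFinset, ⟨(defining_iff hsub).2 ?_, ?_⟩, ?_⟩
  · intro F hF
    obtain ⟨n, hn, hnF⟩ := h2 F hF
    exact ⟨n, hnF, (h1 n hn).1, (h1 n hn).2, (hin n (h1 n hn).1).2 hn⟩
  · intro S' hS' hdef
    obtain ⟨b, hb, hbS'⟩ := Finset.exists_of_ssubset hS'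
    simp only [List.mem_toFinset, List.mem_map] at hb
    obtain ⟨n, hn, rfl⟩ := hb
    obtain ⟨F, hF, hFn⟩ := h3 n hn
    obtain ⟨m, hmF, hmT, hm0, hmS⟩ := (defining_iff (hS'.1.trans hsub)).1 hdef F hF
    have hml : m ∈ l := (hin m hmT).1 (hS'.1 hmS)
    rw [hFn m hml hmF] at hmS
    exact hbS' hmS
  · rw [List.toFinset_card_of_nodup, List.length_map]
    apply List.Nodup.map_on _ hnd
    intro a ha b hb h
    exact blk_inj (T35_lt a (h1 a ha).1) (T35_lt b (h1 b hb).1) h

theorem spectrum_eq : spectrum 2 3 4 (des F0) = {7, 8, 9, 10, 13} := by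
  ext m
  simp only [Set.mem_insert_iff, Set.mem_singleton_iff]
  constructor
  · rintro ⟨S, hS, rfl⟩
    have := size_good hS
    simp only [good, Bool.or_eq_true, Nat.beq_eq] at this
    exact this
  · rintro (rfl | rfl | rfl | rfl | rfl)
    · exact example_size [11, 13, 14, 22, 26, 28, 44] (by decide +kernel) (by decide +kernel)
        (by decide +kernel) (by decide +kernel)
    · exact example_size [11, 13, 26, 28, 35, 37, 44, 88] (by decide +kernel) (by decide +kernel)
        (by decide +kernel) (by decide +kernel)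
    · exact example_size [11, 13, 26, 28, 35, 37, 44, 67, 69] (by decide +kernel)
        (by decide +kernel) (by decide +kernel) (by decide +kernel)
    · exact example_size [11, 13, 22, 26, 28, 35, 44, 88, 98, 104] (by decide +kernel)
        (by decide +kernel) (by decide +kernel) (by decide +kernel)
    · exact example_size [11, 21, 26, 28, 35, 38, 44, 49, 69, 70, 73, 104, 112]
        (by decide +kernel) (by decide +kernel) (by decide +kernel) (by decide +kernel)

end Pool.Agent.U54.Hole
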