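import Mathlib

/-! Exhaustive search for irredundant hitting sets, with a soundness proof. -/

set_option autoImplicit false

namespace Pool.Agent.U54.Hole

/-- evaluate the argument first -/
def frc (n : ℕ) (f : ℕ → Bool) : Bool :=
  match n with
  | 0 => f 0
  | k + 1 => f (k + 1)

theorem frc_eq (n : ℕ) (f : ℕ → Bool) : frc n f = f n := by
  cases n <;> rfl

/-- some element of the list has all its bits in `mu` -/
def red (mu : ℕ) : List ℕ → Bool
  | [] => false
  | x :: t => or (Nat.beq (Nat.land x mu) x) (red mu t)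

theorem red_true {mu : ℕ} {l : List ℕ} (h : red mu l = true) :
    ∃ x ∈ l, Nat.land x mu = x := by
  induction l with
  | nil => simp [red] at h
  | cons x t ih =>
    simp only [red, Bool.or_eq_true] at h
    rcases h with h | h
    · exact ⟨x, by simp, Nat.eq_of_beq_eq_true h⟩
    · obtain ⟨y, hy, e⟩ := ih h
      exact ⟨y, by simp [hy], e⟩

/-- branch over the elements of one set -/
def brn (k : ℕ → ℕ → List ℕ → ℕ → ℕ → Bool) :
    List (ℕ × ℕ) → ℕ → ℕ → List ℕ → ℕ → ℕ → Bool
  | [], _, _, _, _, _ => true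
  | p :: t, once, multi, ch, cnt, ex =>
    and (or (not (Nat.beq (Nat.land ex p.1) 0))
          (frc (Nat.lor multi (Nat.land once p.2)) fun mu =>
            or (red mu (p.2 :: ch)) (frc (Nat.lor once p.2) fun on =>
              k on mu (p.2 :: ch) (cnt + 1) ex)))
        (frc (Nat.lor ex p.1) fun ex' => brn k t once multi ch cnt ex')

/-- the search: `hs` is the list of the sets (bit of the set, elements of the set) -/
def search (full : ℕ) (good : ℕ → Bool) :
    List (ℕ × List (ℕ × ℕ)) → ℕ → ℕ → List ℕ → ℕ → ℕ → Bool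
  | [] => fun once _ _ cnt _ => and (Nat.beq once full) (good cnt)
  | h :: hs => fun once multi ch cnt ex =>
    match Nat.beq (Nat.land once h.1) 0 with
    | true => brn (search full good hs) h.2 once multi ch cnt ex
    | false => search full good hs once multi ch cnt ex

/-- the invariant of the search -/
structure Inv (T : Finset (ℕ × ℕ)) (once multi : ℕ) (chp : List (ℕ × ℕ)) (ex : ℕ) : Prop where
  sub : ∀ p ∈ chp, p ∈ T
  nd : chp.Nodup
  once_iff : ∀ j, once.testBit j = true ↔ ∃ p ∈ chp, p.2.testBit j = true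
  multi_imp : ∀ j, multi.testBit j = true →
    ∃ p ∈ chp, ∃ q ∈ chp, p ≠ q ∧ p.2.testBit j = true ∧ q.2.testBit j = true
  ex_imp : ∀ p ∈ T, Nat.land ex p.1 = 0

/-- every element of `T` has a private bit -/
def Irr (T : Finset (ℕ × ℕ)) : Prop :=
  ∀ p ∈ T, ∃ j, p.2.testBit j = true ∧ ∀ q ∈ T, q ≠ p → q.2.testBit j = false

theorem land_testBit {a b j : ℕ} : (Nat.land a b).testBit j = (a.testBit j && b.testBit j) :=
  Nat.testBit_land a b j

theorem lor_testBit {a b j : ℕ} : (Nat.lor a b).testBit j = (a.testBit j || b.testBit j) :=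
  Nat.testBit_lor a b j

theorem not_red {T : Finset (ℕ × ℕ)} (hT : Irr T) {once mu : ℕ} {chp : List (ℕ × ℕ)} {ex : ℕ}
    (I : Inv T once mu chp ex) : red mu (chp.map Prod.snd) = false := by
  by_contra h
  have h' : red mu (chp.map Prod.snd) = true := by
    cases hh : red mu (chp.map Prod.snd) <;> simp_all
  obtain ⟨x, hx, e⟩ := red_true h'
  obtain ⟨p, hp, rfl⟩ := List.mem_map.1 hx
  obtain ⟨j, hj, hpriv⟩ := hT p (I.sub p hp)
  have hmu : mu.testBit j = true := by
    have : (Nat.land p.2 mu).testBit j = true := by rw [e]; exact hj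
    rw [land_testBit, Bool.and_eq_true] at this
    exact this.2
  obtain ⟨a, ha, b, hb, hab, ha2, hb2⟩ := I.multi_imp j hmu
  by_cases hpa : a = p
  · have hbp : b ≠ p := fun h => hab (hpa.trans h.symm)
    have := hpriv b (I.sub b hb) hbp
    rw [hb2] at this; exact absurd this (by simp)
  · have := hpriv a (I.sub a ha) hpa
    rw [ha2] at this; exact absurd this (by simp)

theorem Inv.choose {T : Finset (ℕ × ℕ)} {once multi : ℕ} {chp : List (ℕ × ℕ)} {ex : ℕ}
    (I : Inv T once multi chp ex) {p : ℕ × ℕ} (hp : p ∈ T) (hpc : p ∉ chp) :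
    Inv T (Nat.lor once p.2) (Nat.lor multi (Nat.land once p.2)) (p :: chp) ex := by
  refine ⟨?_, ?_, ?_, ?_, I.ex_imp⟩
  · intro q hq
    rcases List.mem_cons.1 hq with rfl | hq
    · exact hp
    · exact I.sub q hq
  · exact List.nodup_cons.2 ⟨hpc, I.nd⟩
  · intro j
    rw [lor_testBit, Bool.or_eq_true, I.once_iff j]
    constructor
    · rintro (⟨q, hq, h⟩ | h)
      · exact ⟨q, by simp [hq], h⟩
      · exact ⟨p, by simp, h⟩
    · rintro ⟨q, hq, h⟩
      rcases List.mem_cons.1 hq with rfl | hq
      · exact Or.inr h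
      · exact Or.inl ⟨q, hq, h⟩
  · intro j hj
    rw [lor_testBit, Bool.or_eq_true, land_testBit, Bool.and_eq_true] at hj
    rcases hj with hj | ⟨h1, h2⟩
    · obtain ⟨a, ha, b, hb, h⟩ := I.multi_imp j hj
      exact ⟨a, by simp [ha], b, by simp [hb], h⟩
    · obtain ⟨a, ha, h⟩ := (I.once_iff j).1 h1
      exact ⟨a, by simp [ha], p, by simp, fun e => hpc (e ▸ ha), h, h2⟩

/-- soundness of the branching -/
theorem brn_sound {T : Finset (ℕ × ℕ)} (hT : Irr T) {P : Prop}
    {k : ℕ → ℕ → List ℕ → ℕ → ℕ → Bool}
    (hk : ∀ once multi chp ex, Inv T once multi chp ex →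
      k once multi (chp.map Prod.snd) chp.length ex = true → P)
    (els : List (ℕ × ℕ)) {once multi : ℕ} {chp : List (ℕ × ℕ)} {ex : ℕ}
    (hid : ∀ q ∈ els, q ∉ T → ∀ p ∈ T, Nat.land q.1 p.1 = 0)
    (I : Inv T once multi chp ex)
    (hnc : ∀ p ∈ els, p ∉ chp)
    (h : brn k els once multi (chp.map Prod.snd) chp.length ex = true)
    (hex : ∃ p ∈ els, p ∈ T) : P := by
  induction els generalizing ex with
  | nil => simp at hex
  | cons p t ih =>
    simp only [brn, frc_eq, Bool.and_eq_true] at h
    obtain ⟨h1, h2⟩ := h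
    by_cases hp : p ∈ T
    · have I' := I.choose hp (hnc p (by simp))
      have hz : Nat.land ex p.1 = 0 := I.ex_imp p hp
      have hr := not_red hT I'
      rw [List.map_cons] at hr
      rw [hz, hr] at h1
      simp only [Bool.or_eq_true, Bool.false_or] at h1
      rcases h1 with h1 | h1
      · exact absurd h1 (by decide)
      · exact hk _ _ (p :: chp) ex I' (by simpa using h1)
    · refine ih (fun q hq => hid q (by simp [hq])) ?_ (fun q hq => hnc q (by simp [hq])) h2 ?_
      · refine ⟨I.sub, I.nd, I.once_iff, I.multi_imp, ?_⟩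
        intro q hq
        have e1 := I.ex_imp q hq
        have e2 := hid p (by simp) hp q hq
        apply Nat.eq_of_testBit_eq
        intro j
        have a1 : (Nat.land ex q.1).testBit j = false := by rw [e1]; simp
        have a2 : (Nat.land p.1 q.1).testBit j = false := by rw [e2]; simp
        rw [land_testBit] at a1 a2
        rw [land_testBit, lor_testBit, Nat.zero_testBit]
        cases hq1 : q.1.testBit j <;> simp_all
      · obtain ⟨q, hq, hqT⟩ := hex
        rcases List.mem_cons.1 hq with rfl | hq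
        · exact absurd hqT hp
        · exact ⟨q, hq, hqT⟩

/-- soundness of the search -/
theorem search_sound {T : Finset (ℕ × ℕ)} (hT : Irr T) {full : ℕ} {good : ℕ → Bool}
    (hfull : ∀ p ∈ T, ∀ j, p.2.testBit j = true → full.testBit j = true)
    (hs : List (ℕ × List (ℕ × ℕ)))
    (h1 : ∀ h ∈ hs, ∀ p ∈ h.2, ∃ j, p.2.testBit j = true ∧ h.1.testBit j = true)
    (h2 : ∀ h ∈ hs, ∃ p ∈ h.2, p ∈ T)
    (hid : ∀ h ∈ hs, ∀ q ∈ h.2, q ∉ T → ∀ p ∈ T, Nat.land q.1 p.1 = 0)
    {once multi : ℕ} {chp : List (ℕ × ℕ)} {ex : ℕ}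
    (I : Inv T once multi chp ex)
    (h : search full good hs once multi (chp.map Prod.snd) chp.length ex = true) :
    good T.card = true := by
  induction hs generalizing once multi chp ex with
  | nil =>
    simp only [search, Bool.and_eq_true] at h
    have e := Nat.eq_of_beq_eq_true h.1
    have hTc : T = chp.toFinset := by
      ext p
      rw [List.mem_toFinset]
      refine ⟨fun hp => ?_, fun hp => I.sub p hp⟩
      by_contra hpc
      obtain ⟨j, hj, hpriv⟩ := hT p hp
      have : once.testBit j = true := by rw [e]; exact hfull p hp j hj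
      obtain ⟨q, hq, hq2⟩ := (I.once_iff j).1 this
      have := hpriv q (I.sub q hq) (fun e => hpc (e ▸ hq))
      rw [hq2] at this
      exact absurd this (by simp)
    rw [hTc, List.toFinset_card_of_nodup I.nd]
    exact h.2
  | cons g hs ih =>
    simp only [search] at h
    have ih' := fun {once multi chp ex} (I : Inv T once multi chp ex) h =>
      ih (fun g hg => h1 g (by simp [hg])) (fun g hg => h2 g (by simp [hg]))
        (fun g hg => hid g (by simp [hg])) I h
    split at h
    · rename_i hb
      have hz : Nat.land once g.1 = 0 := Nat.eq_of_beq_eq_true hb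
      refine brn_sound hT (fun once multi chp ex I h => ih' I h) g.2
        (hid g (by simp)) I ?_ h (h2 g (by simp))
      intro p hp hpc
      obtain ⟨j, hj1, hj2⟩ := h1 g (by simp) p hp
      have ho : once.testBit j = true := (I.once_iff j).2 ⟨p, hpc, hj1⟩
      have : (Nat.land once g.1).testBit j = true := by rw [land_testBit, ho, hj2]; rfl
      rw [hz] at this
      simp at this
    · exact ih' I h

end Pool.Agent.U54.Hole
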